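import Mathlib
import Pool.Agent.W546.ST.Defs
import Pool.Agent.Helper82.OS.gsmall

/-!
# The near region
-/
set_option autoImplicit false
open Matrix MeasureTheory Set Metric Filter Topology
open scoped ENNReal Nat

namespace Pool.Agent.W407.ST
open Pool.Agent.Helper82.OS Pool.Agent.W546.ST

/-- auxiliary normal form with the same `e`, `q` -/
noncomputable def F0 {N : ℕ} (G : GN N) : Fr N where
  x := G.e
  e := G.e
  q := G.q
  g := G.q
  c := fun _ => 1
  s := fun _ => 0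
  hx := G.he
  he := G.he
  hq := G.hq
  hg := G.hq
  hqe := G.hqe
  hgx := G.hqe
  hc := fun _ => zero_le_one
  hs := fun _ => le_rfl
  hcs := fun _ => by norm_num
  hgam := by simp
  hdel := by simp

lemma u2_F0 {N : ℕ} (G : GN N) (w : E (N + 1)) : (F0 G).u2 w = G.u2 w := rfl

lemma u2_eq {N : ℕ} (G : GN N) (w : E (N + 1)) : G.u2 w = ‖w‖ ^ 2 - inner ℝ w G.e ^ 2 := by
  rw [← u2_F0 G w, u2_eq_aux_gsmallx (F0 G) w]; rfl

lemma ae_u2 {N : ℕ} (hN : 1 ≤ N) (G : GN N) : ∀ᵐ w : E (N + 1), G.u2 w ≠ 0 :=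
  ae_u2_aux_gsmallx hN (F0 G)

lemma u2_nonneg {N : ℕ} (G : GN N) (w : E (N + 1)) : 0 ≤ G.u2 w :=
  Finset.sum_nonneg fun _ _ => sq_nonneg _

lemma FF_nonneg {N : ℕ} (G : GN N) (t : ℝ) (w : E (N + 1)) : 0 ≤ G.FF t w := Real.sqrt_nonneg _

lemma c_le {N : ℕ} (G : GN N) (j : Fin N) : 0 ≤ 1 - G.c j ^ 2 := by
  have h := G.hcs j
  have h2 : 0 ≤ ∑ a : Fin (N + 1), ‖G.Ga j (EuclideanSpace.single a 1)‖ ^ 2 :=
    Finset.sum_nonneg fun _ _ => by positivity
  linarith

lemma eta_nonneg {N : ℕ} (G : GN N) (w : E (N + 1)) : 0 ≤ G.eta w := by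
  unfold GN.eta
  exact div_nonneg (Finset.sum_nonneg fun j _ => mul_nonneg (c_le G j) (sq_nonneg _)) (u2_nonneg G w)

lemma del_nonneg {N : ℕ} (G : GN N) : 0 ≤ G.del := Finset.sum_nonneg fun j _ => c_le G j

lemma Bq_nonneg {N : ℕ} (G : GN N) (w : E (N + 1)) : 0 ≤ G.Bq w :=
  Finset.sum_nonneg fun _ _ => by positivity

/-! ### the spectral decomposition of `Bq` -/

/-- the Hilbert-Schmidt norm of a skew map in any orthonormal basis -/
lemma hs_skew {k : ℕ} (A : E k →ₗ[ℝ] E k) (hA : ∀ x y, inner ℝ (A x) y = - inner ℝ x (A y))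
    (b : OrthonormalBasis (Fin k) ℝ (E k)) :
    ∑ i, ‖A (b i)‖ ^ 2 = ∑ a : Fin k, ‖A (EuclideanSpace.single a 1)‖ ^ 2 := by
  set c := EuclideanSpace.basisFun (Fin k) ℝ with hc
  have hcs : ∀ a, c a = EuclideanSpace.single a 1 := fun a => by
    rw [hc, EuclideanSpace.basisFun_apply]
  have h1 : ∀ i, ‖A (b i)‖ ^ 2 = ∑ a, inner ℝ (b i) (A (c a)) ^ 2 := by
    intro i
    rw [← c.sum_sq_inner_right (A (b i))]
    refine Finset.sum_congr rfl fun a _ => ?_
    rw [real_inner_comm, hA]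
    ring
  have h2 : ∀ a, ‖A (c a)‖ ^ 2 = ∑ i, inner ℝ (b i) (A (c a)) ^ 2 := fun a =>
    (b.sum_sq_inner_right (A (c a))).symm
  simp only [← hcs]
  rw [Finset.sum_congr rfl fun i _ => h1 i, Finset.sum_congr rfl fun a _ => h2 a, Finset.sum_comm]

lemma skew_le {k : ℕ} (A : E k →ₗ[ℝ] E k) (hA : ∀ x y, inner ℝ (A x) y = - inner ℝ x (A y))
    (b : OrthonormalBasis (Fin k) ℝ (E k)) (i : Fin k) :
    2 * ‖A (b i)‖ ^ 2 ≤ ∑ l, ‖A (b l)‖ ^ 2 := by
  have h1 : ∀ l, ‖A (b l)‖ ^ 2 = ∑ r, inner ℝ (b r) (A (b l)) ^ 2 := fun l =>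
    (b.sum_sq_inner_right (A (b l))).symm
  have h0 : inner ℝ (b i) (A (b i)) = (0 : ℝ) := by
    have := hA (b i) (b i)
    rw [real_inner_comm] at this
    linarith
  have h2 : ∀ l, l ≠ i → inner ℝ (b l) (A (b i)) ^ 2 ≤ ‖A (b l)‖ ^ 2 := by
    intro l _
    rw [h1 l]
    have h3 : inner ℝ (b i) (A (b l)) ^ 2 = inner ℝ (b l) (A (b i)) ^ 2 := by
      have := hA (b l) (b i)
      rw [real_inner_comm] at this
      rw [this]; ring
    rw [← h3]
    exact Finset.single_le_sum (f := fun r => inner ℝ (b r) (A (b l)) ^ 2) (fun r _ => sq_nonneg _)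
      (Finset.mem_univ i)
  rw [← Finset.add_sum_erase _ _ (Finset.mem_univ i)]
  have h4 : ‖A (b i)‖ ^ 2 ≤ ∑ l ∈ Finset.univ.erase i, ‖A (b l)‖ ^ 2 := by
    rw [h1 i, ← Finset.add_sum_erase _ _ (Finset.mem_univ i), h0]
    have : ∑ l ∈ Finset.univ.erase i, inner ℝ (b l) (A (b i)) ^ 2 ≤
        ∑ l ∈ Finset.univ.erase i, ‖A (b l)‖ ^ 2 :=
      Finset.sum_le_sum fun l hl => h2 l (Finset.ne_of_mem_erase hl)
    simpa using this
  linarith

/-- diagonalisation of the quadratic form `Bq` -/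
lemma diag {N : ℕ} (G : GN N) : ∃ (b : OrthonormalBasis (Fin (N + 1)) ℝ (E (N + 1)))
    (lam : Fin (N + 1) → ℝ), (∀ i, 0 ≤ lam i) ∧ (∀ i, lam i ≤ G.del) ∧ ∑ i, lam i = 2 * G.del ∧
    ∀ w, G.Bq w = ∑ i, lam i * inner ℝ w (b i) ^ 2 := by
  set T : E (N + 1) →ₗ[ℝ] E (N + 1) := ∑ j, -(G.Ga j ∘ₗ G.Ga j) with hT
  have hTin : ∀ x y, inner ℝ (T x) y = ∑ j, inner ℝ (G.Ga j x) (G.Ga j y) := by
    intro x y
    rw [hT, LinearMap.sum_apply, sum_inner]
    refine Finset.sum_congr rfl fun j _ => ?_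
    rw [LinearMap.neg_apply, inner_neg_left, LinearMap.comp_apply, G.hsk j, neg_neg]
  have hTs : T.IsSymmetric := by
    intro x y
    rw [hTin, real_inner_comm, hTin]
    refine Finset.sum_congr rfl fun j _ => ?_
    exact real_inner_comm _ _
  have hn : Module.finrank ℝ (E (N + 1)) = N + 1 := by simp
  set b := hTs.eigenvectorBasis hn with hb
  set lam := hTs.eigenvalues hn with hlam
  have hTb : ∀ i, T (b i) = lam i • b i := fun i => by
    have := hTs.apply_eigenvectorBasis hn i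
    simpa only [RCLike.ofReal_real_eq_id, id] using this
  have hlami : ∀ i, lam i = ∑ j, ‖G.Ga j (b i)‖ ^ 2 := by
    intro i
    have h1 := hTin (b i) (b i)
    rw [hTb, inner_smul_left, real_inner_self_eq_norm_sq, b.norm_eq_one] at h1
    simp only [conj_trivial, one_pow, mul_one] at h1
    rw [h1]
    refine Finset.sum_congr rfl fun j _ => ?_
    exact real_inner_self_eq_norm_sq _
  have hHS : ∀ j, ∑ i, ‖G.Ga j (b i)‖ ^ 2 = 2 * (1 - G.c j ^ 2) := by
    intro j
    rw [hs_skew (G.Ga j) (G.hsk j) b]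
    have := G.hcs j
    linarith
  refine ⟨b, lam, ?_, ?_, ?_, ?_⟩
  · intro i
    rw [hlami]
    exact Finset.sum_nonneg fun _ _ => by positivity
  · intro i
    rw [hlami, GN.del]
    refine Finset.sum_le_sum fun j _ => ?_
    have h1 := skew_le (G.Ga j) (G.hsk j) b i
    rw [hHS j] at h1
    linarith
  · rw [Finset.sum_congr rfl fun i _ => hlami i, Finset.sum_comm,
      Finset.sum_congr rfl fun j _ => hHS j, ← Finset.mul_sum, GN.del]
  · intro w
    have h1 : G.Bq w = inner ℝ (T w) w := by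
      rw [hTin, GN.Bq]
      refine Finset.sum_congr rfl fun j _ => ?_
      exact (real_inner_self_eq_norm_sq _).symm
    rw [h1, ← b.sum_inner_mul_inner (T w) w]
    refine Finset.sum_congr rfl fun i _ => ?_
    rw [hTs w (b i), hTb, inner_smul_right, real_inner_comm w (b i)]
    ring

/-! ### the inner integral -/

/-- the exponent -/
noncomputable def RR (m : ℕ) : ℝ := if m = 3 then 79 / 100 else 1

lemma RR_pos (m : ℕ) : 0 < RR m := by unfold RR; split_ifs <;> norm_num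

lemma stein (h2 : St_ST6) {m : ℕ} (hm : 3 ≤ m) (u b : ℝ) (hu : 0 ≤ u) (hb : 0 ≤ b) :
    ∫⁻ t : ℝ, ENNReal.ofReal (Real.sqrt (t ^ 2 + u + b) * Real.sqrt ((t ^ 2 + b) ^ (2 * m - 1)) * gt t)
      ≤ ENNReal.ofReal (Real.exp (RR m * b)) * Psi (2 * m) u := by
  unfold RR
  split_ifs with h
  · subst h
    exact h2 u b hu hb
  · rw [one_mul]
    exact stein1 hm u b hu hb

theorem inner3 (h1 : St_SYM) (h2 : St_ST6) {m : ℕ} (hm : 3 ≤ m) (F : GN (2 * m)) (w : E (2 * m + 1))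
    (hu : F.u2 w ≠ 0) (hal : 0 < F.al w) (hbe : 0 ≤ F.be w) :
    ∫⁻ t : ℝ, ENNReal.ofReal (F.FF t w * gt t * gw w) ≤
      ENNReal.ofReal (Real.exp (-F.del / 2)) * (ENNReal.ofReal (Real.exp (RR m * F.be w)) *
        Psi (2 * m) (F.u2 w)) * ENNReal.ofReal (gw w) := by
  have h1' : ∀ t : ℝ, ENNReal.ofReal (F.FF t w * gt t * gw w) =
      ENNReal.ofReal (F.FF t w * gt t) * ENNReal.ofReal (gw w) := fun t =>
    ENNReal.ofReal_mul (mul_nonneg (FF_nonneg F t w) (gt_pos_aux_gsmallx t).le)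
  simp_rw [h1']
  rw [lintegral_mul_const' _ _ ENNReal.ofReal_ne_top]
  gcongr
  have hu0 : 0 ≤ F.u2 w := u2_nonneg F w
  set h : ℝ → ℝ≥0∞ := fun t => ENNReal.ofReal (F.FF t w * gt t) with hh
  set S : ℝ → ℝ≥0∞ := fun t => ENNReal.ofReal (Real.sqrt (t ^ 2 + F.u2 w + F.be w) *
    Real.sqrt ((t ^ 2 + F.be w) ^ (2 * m - 1)) * gt t) with hS
  have hneg : ∫⁻ t, h (-t) = ∫⁻ t, h t :=
    lintegral_neg_eq_self (μ := (volume : Measure ℝ)) h
  have h2' : 2 * ∫⁻ t, h t ≤ 2 * (ENNReal.ofReal (Real.exp (-F.del / 2)) * ∫⁻ t, S t) := by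
    calc 2 * ∫⁻ t, h t = (∫⁻ t, h t) + (∫⁻ t, h (-t)) := by rw [hneg, two_mul]
      _ ≤ ∫⁻ t, (h t + h (-t)) := le_lintegral_add _ _
      _ ≤ ∫⁻ t, (2 * ENNReal.ofReal (Real.exp (-F.del / 2))) * S t := by
          refine lintegral_mono_ae ?_
          have hne : ∀ᵐ t : ℝ, t ≠ 0 := by
            rw [ae_iff]; simp
          filter_upwards [hne] with t ht
          have hs := (h1 (2 * m) (by omega) F t w hu ht hal).2
          simp only [hh, hS, gt_neg_aux_gsmallx]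
          rw [← ENNReal.ofReal_add (mul_nonneg (FF_nonneg F _ w) (gt_pos_aux_gsmallx t).le)
            (mul_nonneg (FF_nonneg F _ w) (gt_pos_aux_gsmallx t).le)]
          have e2 : (2 : ℝ≥0∞) * ENNReal.ofReal (Real.exp (-F.del / 2)) =
              ENNReal.ofReal (2 * Real.exp (-F.del / 2)) := by
            rw [ENNReal.ofReal_mul (by norm_num)]; simp
          rw [e2, ← ENNReal.ofReal_mul (by positivity)]
          apply ENNReal.ofReal_le_ofReal
          have hg := (gt_pos_aux_gsmallx t).le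
          nlinarith [mul_le_mul_of_nonneg_right hs hg]
      _ = 2 * (ENNReal.ofReal (Real.exp (-F.del / 2)) * ∫⁻ t, S t) := by
          rw [lintegral_const_mul' _ _ (ENNReal.mul_ne_top (by simp) ENNReal.ofReal_ne_top), mul_assoc]
  have h3 : ∫⁻ t, h t ≤ ENNReal.ofReal (Real.exp (-F.del / 2)) * ∫⁻ t, S t :=
    (ENNReal.mul_le_mul_iff_right (by simp) (by simp)).1 h2'
  refine h3.trans ?_
  gcongr
  exact stein h2 hm _ _ hu0 hbe

/-! ### numerical part -/

/-- `D = N - 1 - del` -/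
noncomputable def DD {m : ℕ} (G : GN (2 * m)) : ℝ := ((2 * m : ℕ) : ℝ) - 1 - G.del

lemma DD_pos {m : ℕ} (hm : 3 ≤ m) (G : GN (2 * m)) (hd : G.del ≤ 3 / 20) : 0 < DD G := by
  have hNR : (6 : ℝ) ≤ ((2 * m : ℕ) : ℝ) := by
    have : 6 ≤ 2 * m := by omega
    exact_mod_cast this
  unfold DD
  linarith

/-- the coefficients -/
lemma coefs {m : ℕ} (hm : 3 ≤ m) (G : GN (2 * m)) (hd : G.del ≤ 3 / 20) :
    ∃ (b : OrthonormalBasis (Fin (2 * m + 1)) ℝ (E (2 * m + 1))) (a : Fin (2 * m + 1) → ℝ),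
      (∀ i, 0 ≤ a i) ∧ (∀ i, 2 * a i < 1) ∧
      (∀ w : E (2 * m + 1), ∑ i, a i * inner ℝ w (b i) ^ 2 = 2 * (RR m * G.Bq w / DD G)) ∧
      (∑ i, a i / (1 - 2 * a i)) * (1 + 1 / ((2 * m : ℕ) : ℝ)) ≤ 0.843 * G.del := by
  obtain ⟨b, lam, hl0, hl1, hls, hB⟩ := diag G
  have hD := DD_pos hm G hd
  have hd0 := del_nonneg G
  have hR := RR_pos m
  -- uniform bound of the coefficients
  obtain ⟨A, q, hA0, hA, hq, hfin⟩ : ∃ A q : ℝ, A < 1 ∧ 4 * RR m * G.del / (DD G) ≤ A ∧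
      4 * RR m / DD G ≤ q ∧ q / (1 - A) * (1 + 1 / ((2 * m : ℕ) : ℝ)) ≤ 0.843 := by
    rcases eq_or_ne m 3 with rfl | hm3
    · have hR3 : RR 3 = 79 / 100 := by simp [RR]
      have hD3 : 4.85 ≤ DD G := by
        unfold DD
        norm_num
        linarith
      refine ⟨0.0978, 0.6516, by norm_num, ?_, ?_, ?_⟩
      · rw [hR3, div_le_iff₀ hD]
        nlinarith
      · rw [hR3, div_le_iff₀ hD]
        nlinarith
      · norm_num
    · have hm4 : 4 ≤ m := by omega
      have hR4 : RR m = 1 := by simp [RR, hm3]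
      have hN8 : (8 : ℝ) ≤ ((2 * m : ℕ) : ℝ) := by
        have : 8 ≤ 2 * m := by omega
        exact_mod_cast this
      have hD4 : 6.85 ≤ DD G := by
        unfold DD
        linarith
      refine ⟨0.0876, 0.58395, by norm_num, ?_, ?_, ?_⟩
      · rw [hR4, div_le_iff₀ hD]
        nlinarith
      · rw [hR4, div_le_iff₀ hD]
        nlinarith
      · have h4 : (1 : ℝ) + 1 / ((2 * m : ℕ) : ℝ) ≤ 9 / 8 := by
          have : 1 / ((2 * m : ℕ) : ℝ) ≤ 1 / 8 := one_div_le_one_div_of_le (by norm_num) hN8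
          linarith
        calc (0.58395 : ℝ) / (1 - 0.0876) * (1 + 1 / ((2 * m : ℕ) : ℝ)) ≤
              0.58395 / (1 - 0.0876) * (9 / 8) :=
              mul_le_mul_of_nonneg_left h4 (by norm_num)
          _ ≤ 0.843 := by norm_num
  set a : Fin (2 * m + 1) → ℝ := fun i => 2 * RR m * lam i / DD G with ha
  have ha0 : ∀ i, 0 ≤ a i := fun i => by
    have := hl0 i
    simp only [ha]; positivity
  have haA : ∀ i, 2 * a i ≤ A := by
    intro i
    refine le_trans ?_ hA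
    simp only [ha]
    rw [← mul_div_assoc, div_le_div_iff_of_pos_right hD]
    nlinarith [mul_le_mul_of_nonneg_left (hl1 i) hR.le]
  have hA1 : 0 < 1 - A := by linarith
  refine ⟨b, a, ha0, fun i => (haA i).trans_lt hA0, ?_, ?_⟩
  · intro w
    rw [hB w, Finset.mul_sum, Finset.sum_div, Finset.mul_sum]
    refine Finset.sum_congr rfl fun i _ => ?_
    simp only [ha]
    ring
  · have h1 : ∑ i, a i / (1 - 2 * a i) ≤ ∑ i, a i / (1 - A) := by
      refine Finset.sum_le_sum fun i _ => ?_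
      exact div_le_div_of_nonneg_left (ha0 i) hA1 (by linarith [haA i])
    have h2 : ∑ i, a i / (1 - A) = 4 * RR m / DD G * G.del / (1 - A) := by
      rw [← Finset.sum_div]
      congr 1
      simp only [ha]
      rw [← Finset.sum_div, ← Finset.mul_sum, hls]
      ring
    have h3 : 4 * RR m / DD G * G.del / (1 - A) ≤ q / (1 - A) * G.del := by
      have e : 4 * RR m / DD G * G.del / (1 - A) = 4 * RR m / DD G / (1 - A) * G.del := by ring
      rw [e]
      exact mul_le_mul_of_nonneg_right (div_le_div_of_nonneg_right hq hA1.le) hd0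
    have h5 : (0 : ℝ) ≤ 1 + 1 / ((2 * m : ℕ) : ℝ) := by positivity
    calc (∑ i, a i / (1 - 2 * a i)) * (1 + 1 / ((2 * m : ℕ) : ℝ))
        ≤ (q / (1 - A) * G.del) * (1 + 1 / ((2 * m : ℕ) : ℝ)) :=
          mul_le_mul_of_nonneg_right (h1.trans (h2.le.trans h3)) h5
      _ = (q / (1 - A) * (1 + 1 / ((2 * m : ℕ) : ℝ))) * G.del := by ring
      _ ≤ 0.843 * G.del := mul_le_mul_of_nonneg_right hfin hd0

/-- the second coefficient -/
lemma coefc {m : ℕ} (hm : 3 ≤ m) (G : GN (2 * m)) (hd : G.del ≤ 3 / 20) :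
    2 * RR m * (((2 * m : ℕ) : ℝ) - 1) / DD G ^ 2 * G.del ≤ 1 / 10 ∧
    1 + 6 / 5 * (2 * RR m * (((2 * m : ℕ) : ℝ) - 1) / DD G ^ 2) * G.del / ((2 * m : ℕ) : ℝ) ≤
      Real.exp (0.0672 * G.del) := by
  have hD := DD_pos hm G hd
  have hd0 := del_nonneg G
  have hR := RR_pos m
  -- bound of the coefficient
  have hmain : ∃ κ : ℝ, 2 * RR m * (((2 * m : ℕ) : ℝ) - 1) / DD G ^ 2 ≤ κ ∧ κ ≤ 0.336 ∧
      6 / 5 * κ / ((2 * m : ℕ) : ℝ) ≤ 0.0672 := by
    rcases eq_or_ne m 3 with rfl | hm3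
    · have hR3 : RR 3 = 79 / 100 := by simp [RR]
      have hD3 : 4.85 ≤ DD G := by
        unfold DD
        norm_num
        linarith
      refine ⟨0.336, ?_, le_rfl, by norm_num⟩
      rw [hR3, div_le_iff₀ (by positivity)]
      push_cast
      nlinarith
    · have hm4 : 4 ≤ m := by omega
      have hR4 : RR m = 1 := by simp [RR, hm3]
      have hN8 : (8 : ℝ) ≤ ((2 * m : ℕ) : ℝ) := by
        have : 8 ≤ 2 * m := by omega
        exact_mod_cast this
      refine ⟨0.336, ?_, le_rfl, ?_⟩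
      · rw [hR4, div_le_iff₀ (by positivity)]
        unfold DD
        set N : ℝ := ((2 * m : ℕ) : ℝ)
        have h1 : 0 ≤ N - 1 - 0.15 := by linarith
        have h2 : N - 1 - 0.15 ≤ N - 1 - G.del := by linarith
        have h3 : (N - 1 - 0.15) ^ 2 ≤ (N - 1 - G.del) ^ 2 := pow_le_pow_left₀ h1 h2 2
        nlinarith
      · rw [div_le_iff₀ (by linarith)]
        nlinarith
  obtain ⟨κ, hκ, hκ1, hκ2⟩ := hmain
  have hNR : (6 : ℝ) ≤ ((2 * m : ℕ) : ℝ) := by
    have : 6 ≤ 2 * m := by omega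
    exact_mod_cast this
  have hc0 : 0 ≤ 2 * RR m * (((2 * m : ℕ) : ℝ) - 1) / DD G ^ 2 := by
    have : 0 ≤ ((2 * m : ℕ) : ℝ) - 1 := by linarith
    positivity
  refine ⟨?_, ?_⟩
  · calc 2 * RR m * (((2 * m : ℕ) : ℝ) - 1) / DD G ^ 2 * G.del ≤ κ * G.del :=
          mul_le_mul_of_nonneg_right hκ hd0
      _ ≤ 0.336 * (3 / 20) := mul_le_mul hκ1 hd hd0 (by norm_num)
      _ ≤ 1 / 10 := by norm_num
  · have h1 : 6 / 5 * (2 * RR m * (((2 * m : ℕ) : ℝ) - 1) / DD G ^ 2) * G.del / ((2 * m : ℕ) : ℝ) ≤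
        0.0672 * G.del := by
      calc 6 / 5 * (2 * RR m * (((2 * m : ℕ) : ℝ) - 1) / DD G ^ 2) * G.del / ((2 * m : ℕ) : ℝ)
          ≤ 6 / 5 * κ * G.del / ((2 * m : ℕ) : ℝ) := by gcongr
        _ = 6 / 5 * κ / ((2 * m : ℕ) : ℝ) * G.del := by ring
        _ ≤ 0.0672 * G.del := mul_le_mul_of_nonneg_right hκ2 hd0
    have h2 := Real.add_one_le_exp (0.0672 * G.del)
    linarith

/-- bound of `be` -/
lemma be_le {m : ℕ} (hm : 3 ≤ m) (G : GN (2 * m)) (hd : G.del ≤ 3 / 20) (w : E (2 * m + 1)) :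
    0 < G.al w ∧ 0 ≤ G.be w ∧ G.be w ≤ G.Bq w / DD G +
      G.k2 w ^ 2 * (((2 * m : ℕ) : ℝ) - 1) / DD G ^ 2 := by
  have hD := DD_pos hm G hd
  have hd0 := del_nonneg G
  have hNR : (6 : ℝ) ≤ ((2 * m : ℕ) : ℝ) := by
    have : 6 ≤ 2 * m := by omega
    exact_mod_cast this
  set N1 : ℝ := ((2 * m : ℕ) : ℝ) - 1 with hN1
  have hN0 : 0 < N1 := by linarith
  have hDe : DD G = N1 - G.del := by rw [hN1]; rfl
  have he := eta_nonneg G w
  have hal : DD G / N1 ≤ G.al w := by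
    unfold GN.al
    rw [hDe, div_le_iff₀ hN0, ← hN1]
    have : (1 - (G.del - G.eta w) / N1) * N1 = N1 - (G.del - G.eta w) := by field_simp
    rw [this]
    linarith
  have ha0 : 0 < DD G / N1 := by positivity
  have hal0 : 0 < G.al w := ha0.trans_le hal
  have hB := Bq_nonneg G w
  have hk : 0 ≤ G.k2 w ^ 2 := sq_nonneg _
  refine ⟨hal0, ?_, ?_⟩
  · unfold GN.be
    rw [← hN1]
    positivity
  · unfold GN.be
    rw [← hN1]
    calc (G.Bq w + G.k2 w ^ 2 / G.al w) / N1 / G.al w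
        ≤ (G.Bq w + G.k2 w ^ 2 / (DD G / N1)) / N1 / (DD G / N1) := by gcongr
      _ = G.Bq w / DD G + G.k2 w ^ 2 * N1 / DD G ^ 2 := by
          field_simp

theorem NEAR (h1 : St_SYM) (h2 : St_ST6) (h3 : St_GK2) : St_NEAR := by
  intro m hm G hd
  have hNR : (6 : ℝ) ≤ ((2 * m : ℕ) : ℝ) := by
    have : 6 ≤ 2 * m := by omega
    exact_mod_cast this
  have hN0 : (0 : ℝ) < ((2 * m : ℕ) : ℝ) := by linarith
  have hd0 : 0 ≤ G.del := del_nonneg G
  have hD := DD_pos hm G hd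
  have hR := RR_pos m
  obtain ⟨b, a, ha0, ha1, hsum, hcoef⟩ := coefs hm G hd
  obtain ⟨hc1, hc2⟩ := coefc hm G hd
  set β1 : E (2 * m + 1) → ℝ := fun w => RR m * G.Bq w / DD G with hβ1
  set c : ℝ := 2 * RR m * (((2 * m : ℕ) : ℝ) - 1) / DD G ^ 2 with hc
  have hc0 : 0 ≤ c := by
    have : 0 ≤ ((2 * m : ℕ) : ℝ) - 1 := by linarith
    positivity
  set β2 : E (2 * m + 1) → ℝ := fun w => c * G.k2 w ^ 2 / 2 with hβ2
  -- measurability
  have mGa : ∀ j, Measurable (fun w => G.Ga j w) := fun j =>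
    (LinearMap.continuous_of_finiteDimensional (G.Ga j)).measurable
  have mu2 : Measurable G.u2 := by
    unfold GN.u2
    fun_prop
  have mBq : Measurable G.Bq := by
    unfold GN.Bq
    fun_prop
  have mk2 : Measurable G.k2 := by
    unfold GN.k2
    refine Measurable.div ?_ mu2
    unfold GN.lv
    fun_prop
  have mgw : Measurable (gw : E (2 * m + 1) → ℝ) := by unfold gw; fun_prop
  have mβ1 : Measurable β1 := by
    simp only [hβ1]
    fun_prop
  have mβ2 : Measurable β2 := by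
    simp only [hβ2]
    fun_prop
  have hu2e : ∀ w, ‖w‖ ^ 2 - inner ℝ w G.e ^ 2 = G.u2 w := fun w => (u2_eq G w).symm
  simp only [hu2e]
  set I : ℝ≥0∞ := ∫⁻ w : E (2 * m + 1), Psi (2 * m) (G.u2 w) * ENNReal.ofReal (gw w) with hI
  have I1 : ∫⁻ w : E (2 * m + 1), Psi (2 * m) (G.u2 w) *
      ENNReal.ofReal (Real.exp (2 * β1 w) * gw w) ≤ ENNReal.ofReal (Real.exp (0.843 * G.del)) * I := by
    refine dom_aux_gsmallx G.u2 (fun w => Real.exp (2 * β1 w)) mu2 (by fun_prop) (fun w => (Real.exp_pos _).le) _ ?_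
    intro t
    have h := gauss_tilt (N := 2 * m) (by omega) b a ha0 ha1 G.e G.he t
    simp only [hu2e, hsum] at h
    refine h.trans ?_
    gcongr
  have I2 : ∫⁻ w : E (2 * m + 1), Psi (2 * m) (G.u2 w) *
      ENNReal.ofReal (Real.exp (2 * β2 w) * gw w) ≤ ENNReal.ofReal (Real.exp (0.0672 * G.del)) * I := by
    refine dom_aux_gsmallx G.u2 (fun w => Real.exp (2 * β2 w)) mu2 (by fun_prop) (fun w => (Real.exp_pos _).le) _ ?_
    intro t
    have h := h3 (2 * m) (by omega) G c hc0 hc1 t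
    have e2 : ∀ w : E (2 * m + 1), 2 * β2 w = c * G.k2 w ^ 2 := fun w => by
      simp only [hβ2]; ring
    simp only [e2]
    refine h.trans ?_
    gcongr
  set ra : ℝ := Real.exp (-(0.1939 * G.del)) with hra
  set rb : ℝ := Real.exp (0.1939 * G.del) with hrb
  have hra0 : 0 < ra := Real.exp_pos _
  have hrb0 : 0 < rb := Real.exp_pos _
  have hrab : ra * rb = 1 := by
    rw [hra, hrb, ← Real.exp_add]; simp
  set L1 : ℝ := 1 / 2 * ra ^ 2 with hL1
  set L2 : ℝ := 1 / 2 * rb ^ 2 with hL2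
  have hL10 : 0 < L1 := by positivity
  have hL20 : 0 < L2 := by positivity
  have step : ∀ᵐ w : E (2 * m + 1), (∫⁻ t : ℝ, ENNReal.ofReal (G.FF t w * gt t * gw w)) ≤
      ENNReal.ofReal (Real.exp (-G.del / 2)) *
        (Psi (2 * m) (G.u2 w) * ENNReal.ofReal (L1 * (Real.exp (2 * β1 w) * gw w)) +
         Psi (2 * m) (G.u2 w) * ENNReal.ofReal (L2 * (Real.exp (2 * β2 w) * gw w))) := by
    filter_upwards [ae_u2 (by omega) G] with w hu
    obtain ⟨hal, hbe, hble⟩ := be_le hm G hd w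
    refine (inner3 h1 h2 hm G w hu hal hbe).trans ?_
    have hb12 : RR m * G.be w ≤ β1 w + β2 w := by
      refine (mul_le_mul_of_nonneg_left hble hR.le).trans (le_of_eq ?_)
      simp only [hβ1, hβ2, hc]
      field_simp
    have hexp : Real.exp (RR m * G.be w) ≤ L1 * Real.exp (2 * β1 w) + L2 * Real.exp (2 * β2 w) := by
      have h1 : Real.exp (RR m * G.be w) ≤ Real.exp (β1 w) * Real.exp (β2 w) := by
        rw [← Real.exp_add]; exact Real.exp_le_exp.2 hb12
      have h2 : Real.exp (2 * β1 w) = Real.exp (β1 w) ^ 2 := by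
        rw [← Real.exp_nat_mul]; norm_num
      have h3 : Real.exp (2 * β2 w) = Real.exp (β2 w) ^ 2 := by
        rw [← Real.exp_nat_mul]; norm_num
      rw [h2, h3]
      have h4 : 0 ≤ (ra * Real.exp (β1 w) - rb * Real.exp (β2 w)) ^ 2 := sq_nonneg _
      have h5 : (ra * Real.exp (β1 w) - rb * Real.exp (β2 w)) ^ 2 =
          2 * (L1 * Real.exp (β1 w) ^ 2 + L2 * Real.exp (β2 w) ^ 2) -
          2 * (ra * rb) * (Real.exp (β1 w) * Real.exp (β2 w)) := by
        rw [hL1, hL2]; ring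
      rw [h5, hrab] at h4
      linarith
    have hg := (gw_pos_aux_gsmallx w).le
    rw [← mul_add, ← ENNReal.ofReal_add (by positivity) (by positivity), mul_assoc]
    gcongr ENNReal.ofReal (Real.exp (-G.del / 2)) * ?_
    rw [mul_comm (ENNReal.ofReal (Real.exp (RR m * G.be w))) _, mul_assoc]
    gcongr Psi (2 * m) (G.u2 w) * ?_
    rw [← ENNReal.ofReal_mul (Real.exp_pos _).le]
    apply ENNReal.ofReal_le_ofReal
    nlinarith [mul_le_mul_of_nonneg_right hexp hg]
  unfold GGN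
  refine (lintegral_mono_ae step).trans ?_
  rw [lintegral_const_mul' _ _ ENNReal.ofReal_ne_top]
  have mPsi : Measurable (fun w : E (2 * m + 1) => Psi (2 * m) (G.u2 w)) := by
    have hgt : Measurable gt := by unfold gt; fun_prop
    have h1 : Measurable (fun u : ℝ => Psi (2 * m) u) := by
      unfold Psi
      refine Measurable.lintegral_prod_right' (f := fun p : ℝ × ℝ =>
        ENNReal.ofReal (Real.sqrt (p.2 ^ 2 + p.1) * |p.2| ^ (2 * m - 1) * gt p.2)) ?_
      fun_prop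
    exact h1.comp mu2
  rw [lintegral_add_left]
  · have half : ∀ (L : ℝ), 0 < L → ∀ β : E (2 * m + 1) → ℝ,
        ∫⁻ w : E (2 * m + 1), Psi (2 * m) (G.u2 w) * ENNReal.ofReal (L * (Real.exp (2 * β w) * gw w)) =
        ENNReal.ofReal L * ∫⁻ w : E (2 * m + 1), Psi (2 * m) (G.u2 w) *
          ENNReal.ofReal (Real.exp (2 * β w) * gw w) := by
      intro L hL β
      rw [← lintegral_const_mul' _ _ ENNReal.ofReal_ne_top]
      refine lintegral_congr fun w => ?_
      rw [ENNReal.ofReal_mul hL.le]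
      ring
    rw [half L1 hL10 β1, half L2 hL20 β2]
    calc ENNReal.ofReal (Real.exp (-G.del / 2)) * (ENNReal.ofReal L1 * (∫⁻ w : E (2 * m + 1),
            Psi (2 * m) (G.u2 w) * ENNReal.ofReal (Real.exp (2 * β1 w) * gw w)) +
          ENNReal.ofReal L2 * (∫⁻ w : E (2 * m + 1),
            Psi (2 * m) (G.u2 w) * ENNReal.ofReal (Real.exp (2 * β2 w) * gw w)))
        ≤ ENNReal.ofReal (Real.exp (-G.del / 2)) *
          (ENNReal.ofReal L1 * (ENNReal.ofReal (Real.exp (0.843 * G.del)) * I) +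
           ENNReal.ofReal L2 * (ENNReal.ofReal (Real.exp (0.0672 * G.del)) * I)) := by
          gcongr
      _ = (ENNReal.ofReal (Real.exp (-G.del / 2)) * (ENNReal.ofReal L1 * ENNReal.ofReal (Real.exp (0.843 * G.del)) +
            ENNReal.ofReal L2 * ENNReal.ofReal (Real.exp (0.0672 * G.del)))) * I := by ring
      _ ≤ ENNReal.ofReal (Real.exp (-(G.del / 100))) * I := by
          gcongr
          rw [← ENNReal.ofReal_mul hL10.le, ← ENNReal.ofReal_mul hL20.le,
            ← ENNReal.ofReal_add (by positivity) (by positivity), ← ENNReal.ofReal_mul (by positivity)]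
          apply ENNReal.ofReal_le_ofReal
          have e1 : Real.exp (-G.del / 2) * (L1 * Real.exp (0.843 * G.del)) ≤
              1 / 2 * Real.exp (-(G.del / 100)) := by
            have : Real.exp (-G.del / 2) * (L1 * Real.exp (0.843 * G.del)) =
                1 / 2 * Real.exp (-G.del / 2 + (-(0.1939 * G.del) + (-(0.1939 * G.del) + 0.843 * G.del))) := by
              rw [Real.exp_add, Real.exp_add, Real.exp_add, hL1, hra]; ring
            rw [this]
            apply mul_le_mul_of_nonneg_left _ (by norm_num)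
            apply Real.exp_le_exp.2
            linarith
          have e2 : Real.exp (-G.del / 2) * (L2 * Real.exp (0.0672 * G.del)) ≤
              1 / 2 * Real.exp (-(G.del / 100)) := by
            have : Real.exp (-G.del / 2) * (L2 * Real.exp (0.0672 * G.del)) =
                1 / 2 * Real.exp (-G.del / 2 + (0.1939 * G.del + (0.1939 * G.del + 0.0672 * G.del))) := by
              rw [Real.exp_add, Real.exp_add, Real.exp_add, hL2, hrb]; ring
            rw [this]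
            apply mul_le_mul_of_nonneg_left _ (by norm_num)
            apply Real.exp_le_exp.2
            linarith
          rw [mul_add]
          linarith
  · exact mPsi.mul (by fun_prop)

end Pool.Agent.W407.ST
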